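import Mathlib

set_option autoImplicit false

namespace Pool.Agent.H.MP_2757db_lc.A

open Set Filter Topology Function TopologicalSpace
open Cardinal hiding univ

/-- the predecessors of each node are well-ordered -/
def IsTree (T : Type) [PartialOrder T] : Prop := ∀ x : T, IsWellOrder (Iio x) (· < ·)

/-- the fine wedge topology -/
@[reducible] def fw (T : Type) [PartialOrder T] : TopologicalSpace T :=
  generateFrom (range (fun t : T => Ici t) ∪ range (fun t : T => (Ici t)ᶜ))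

def Lind (T : Type) [PartialOrder T] : Prop := @LindelofSpace T (fw T)

def LindProd (T T' : Type) [PartialOrder T] [PartialOrder T'] : Prop :=
  @LindelofSpace (T × T') (@instTopologicalSpaceProd T T' (fw T) (fw T'))

def Suslin (T : Type) [PartialOrder T] : Prop := IsTree T ∧ Uncountable T ∧
  (∀ C : Set T, IsChain (· ≤ ·) C → C.Countable) ∧ ∀ A : Set T, IsAntichain (· ≤ ·) A → A.Countable

/-- Martin's axiom for `ℵ₁` dense sets -/
def MA : Prop := ∀ (P : Type) [PartialOrder P] [Nonempty P],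
  (∀ A : Set P, (A.Pairwise fun p q => ¬ ∃ r, r ≤ p ∧ r ≤ q) → A.Countable) →
  ∀ 𝒟 : Set (Set P), #𝒟 ≤ ℵ₁ → (∀ D ∈ 𝒟, ∀ p, ∃ q ∈ D, q ≤ p) →
  ∃ G : Set P, G.Nonempty ∧ IsUpperSet G ∧ (∀ p ∈ G, ∀ q ∈ G, ∃ r ∈ G, r ≤ p ∧ r ≤ q) ∧
    ∀ D ∈ 𝒟, (G ∩ D).Nonempty

variable {T T' : Type} [PartialOrder T] [PartialOrder T']

lemma IsTree.cmp (h : IsTree T) {a b x : T} (ha : a ≤ x) (hb : b ≤ x) : a ≤ b ∨ b ≤ a := by
  rcases ha.eq_or_lt with rfl | ha
  · exact .inr hb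
  rcases hb.eq_or_lt with rfl | hb
  · exact .inl ha.le
  have := h x
  rcases trichotomous_of (fun u v : Iio x => u < v) ⟨a, ha⟩ ⟨b, hb⟩ with k | k | k
  · exact .inl (le_of_lt k)
  · exact .inl (le_of_eq (congrArg Subtype.val k))
  · exact .inr (le_of_lt k)

lemma IsTree.wf (h : IsTree T) : WellFounded fun a b : T => a < b := by
  refine ⟨fun x => ⟨x, fun y hy => ?_⟩⟩
  have := h x
  have k : ∀ z : Iio x, Acc (fun a b : T => a < b) z.1 := fun z => by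
    induction z using (IsWellFounded.wf (r := fun u v : Iio x => u < v)).induction with
    | _ z ih => exact ⟨_, fun w hw => ih ⟨w, lt_trans hw z.2⟩ hw⟩
  exact k ⟨y, hy⟩

lemma tree_of (w : WellFounded fun a b : T => a < b)
    (c : ∀ a b x : T, a ≤ x → b ≤ x → a ≤ b ∨ b ≤ a) : IsTree T := fun x =>
  { wf := InvImage.wf (fun z : Iio x => z.1) w
    trichotomous := fun a b h1 h2 => Subtype.ext <| by
      rcases c a.1 b.1 x a.2.le b.2.le with k | k
      · exact k.eq_of_not_lt h1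
      · exact (k.eq_of_not_lt h2).symm }

lemma oI (t : T) : IsOpen[fw T] (Ici t) := isOpen_generateFrom_of_mem (.inl ⟨t, rfl⟩)
lemma oC (t : T) : IsOpen[fw T] (Ici t)ᶜ := isOpen_generateFrom_of_mem (.inr ⟨t, rfl⟩)

def B (x : T) (F : Set T) : Set T := {z | x ≤ z ∧ ∀ y ∈ F, ¬ y ≤ z}

lemma oB (x : T) {F : Set T} (hF : F.Finite) : IsOpen[fw T] (B x F) := by
  letI := fw T
  have : B x F = Ici x ∩ ⋂ y ∈ F, (Ici y)ᶜ := by ext z; simp [B]
  rw [this]
  exact (oI x).inter (hF.isOpen_biInter fun y _ => oC y)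

lemma nb {U : Set T} (hU : IsOpen[fw T] U) {x : T} (hx : x ∈ U) :
    ∃ F : Set T, F.Finite ∧ (∀ y ∈ F, ¬ y ≤ x) ∧ B x F ⊆ U := by
  induction hU with
  | basic s hs =>
    rcases hs with ⟨t, rfl⟩ | ⟨t, rfl⟩
    · exact ⟨∅, finite_empty, by simp, fun z hz => le_trans hx hz.1⟩
    · exact ⟨{t}, finite_singleton _, by simpa using hx, fun z hz => hz.2 t rfl⟩
  | univ => exact ⟨∅, finite_empty, by simp, subset_univ _⟩
  | inter s t _ _ i j =>
    obtain ⟨F, a, b, c⟩ := i hx.1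
    obtain ⟨G, a', b', c'⟩ := j hx.2
    exact ⟨F ∪ G, a.union a', fun y hy => hy.elim (b y) (b' y), fun z hz =>
      ⟨c ⟨hz.1, fun y hy => hz.2 y (.inl hy)⟩, c' ⟨hz.1, fun y hy => hz.2 y (.inr hy)⟩⟩⟩
  | sUnion S _ i =>
    obtain ⟨s, hs, h⟩ := hx
    obtain ⟨F, a, b, c⟩ := i s hs h
    exact ⟨F, a, b, c.trans (subset_sUnion_of_mem hs)⟩

def W (F : T → Set T) : Set T := {t | ∀ b < t, ∃ y ∈ F b, y ≤ t ∨ t ≤ y}

lemma W_low (h : IsTree T) (F : T → Set T) {s t : T} (ht : t ∈ W F) (l : s ≤ t) : s ∈ W F :=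
  fun b hb => by
    obtain ⟨y, a, c | c⟩ := ht b (hb.trans_le l)
    · exact ⟨y, a, h.cmp c l⟩
    · exact ⟨y, a, .inr (l.trans c)⟩

lemma W_cnt (h : IsTree T) (hL : Lind T) (F : T → Set T) (h1 : ∀ b, (F b).Finite)
    (h2 : ∀ b, ∀ y ∈ F b, ¬ y ≤ b) : (W F).Countable := by
  letI := fw T
  haveI : LindelofSpace T := hL
  have : ∀ b y : T, ∃ m, b < y → b < m ∧ m ≤ y ∧ ∀ t, b < t → t ≤ y → m ≤ t := fun b y => by
    by_cases l : b < y
    · obtain ⟨m, hm, k⟩ := h.wf.has_min (Ioc b y) ⟨y, l, le_rfl⟩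
      exact ⟨m, fun _ => ⟨hm.1, hm.2, fun t t1 t2 => (h.cmp hm.2 t2).elim id fun e =>
        (e.eq_of_not_lt (k t ⟨t1, t2⟩)).ge⟩⟩
    · exact ⟨b, fun k => (l k).elim⟩
  choose m hm using this
  obtain ⟨S, hS, hc⟩ := isLindelof_univ.elim_countable_subcover
    (fun b => B b (m b '' (F b ∩ Ioi b))) (fun b => oB b (((h1 b).inter_of_left _).image _))
    (fun x _ => mem_iUnion.2 ⟨x, le_rfl, by
      rintro _ ⟨y, hy, rfl⟩; exact (hm x y hy.2).1.not_ge⟩)
  refine hS.mono fun t ht => ?_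
  obtain ⟨b, hb, l, k⟩ := mem_iUnion₂.1 (hc (mem_univ t))
  rcases l.eq_or_lt with rfl | l
  · exact hb
  obtain ⟨y, a, c | c⟩ := ht b l
  · have : b < y := lt_of_le_not_ge ((h.cmp l.le c).resolve_right (h2 b y a)) (h2 b y a)
    exact (k _ ⟨y, ⟨a, this⟩, rfl⟩ ((hm b y this).2.1.trans c)).elim
  · exact (k _ ⟨y, ⟨a, l.trans_le c⟩, rfl⟩ ((hm b y (l.trans_le c)).2.2 t l c)).elim

lemma lind_of (h : IsTree T) (H : ∀ F : T → Set T, (∀ b, (F b).Finite) →
    (∀ b, ∀ y ∈ F b, ¬ y ≤ b) → (W F).Countable) : Lind T := by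
  letI := fw T
  refine ⟨isLindelof_of_countable_subcover fun {ι} U hU hc => ?_⟩
  have : ∀ x : T, ∃ i, ∃ F : Set T, F.Finite ∧ (∀ y ∈ F, ¬ y ≤ x) ∧ B x F ⊆ U i := fun x => by
    obtain ⟨i, hi⟩ := mem_iUnion.1 (hc (mem_univ x))
    exact ⟨i, nb (hU i) hi⟩
  choose i F a b c using this
  refine ⟨i '' W F, (H F a b).image _, fun x _ => ?_⟩
  obtain ⟨s, hs, k⟩ := h.wf.has_min {s | x ∈ B s (F s)} ⟨x, le_rfl, b x⟩
  refine mem_biUnion (mem_image_of_mem i (x := s) fun s' l => ?_) (c s hs)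
  have : ¬ x ∈ B s' (F s') := fun e => k s' e l
  simp only [B, mem_setOf, not_and, not_forall, not_not] at this
  obtain ⟨y, hy, e⟩ := this (l.le.trans hs.1)
  exact ⟨y, hy, h.cmp e hs.1⟩

lemma chain_cnt (h : IsTree T) (hL : Lind T) {C : Set T} (hC : IsChain (· ≤ ·) C) :
    C.Countable := by
  have : ∀ b : T, ∃ F : Set T, F.Finite ∧ (∀ y ∈ F, ¬ y ≤ b) ∧
      ∀ t ∈ C, b < t → ∃ y ∈ F, y ≤ t ∨ t ≤ y := fun b => by
    by_cases k : ∃ y ∈ C, b < y
    · obtain ⟨y, a, l⟩ := k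
      exact ⟨{y}, finite_singleton _, by simpa using l.not_ge, fun t ht _ =>
        ⟨y, rfl, hC.total a ht⟩⟩
    · exact ⟨∅, finite_empty, by simp, fun t ht l => (k ⟨t, ht, l⟩).elim⟩
  choose F a b c using this
  exact (W_cnt h hL F a b).mono fun t ht b l => c b t ht l

lemma prod_of (h : IsTree T) (h' : IsTree T') (hL : Lind T')
    (H : ∀ F : T → Set T, (∀ b, (F b).Countable) → (∀ b, ∀ y ∈ F b, ¬ y ≤ b) → (W F).Countable) :
    LindProd T T' := by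
  letI := fw T
  letI := fw T'
  refine ⟨isLindelof_of_countable_subcover fun {ι} U hU hc => ?_⟩
  have : ∀ (x : T) (y : T'), ∃ i, ∃ (F : Set T) (G : Set T'), F.Finite ∧ (∀ z ∈ F, ¬ z ≤ x) ∧
      G.Finite ∧ (∀ z ∈ G, ¬ z ≤ y) ∧ B x F ×ˢ B y G ⊆ U i := fun x y => by
    obtain ⟨i, hi⟩ := mem_iUnion.1 (hc (mem_univ (x, y)))
    obtain ⟨u, v, hu, hv, hx, hy, k⟩ := isOpen_prod_iff.1 (hU i) x y hi
    obtain ⟨F, a, b, c⟩ := nb hu hx
    obtain ⟨G, a', b', c'⟩ := nb hv hy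
    exact ⟨i, F, G, a, b, a', b', (prod_mono c c').trans k⟩
  choose i F G a b a' b' c using this
  have cB : ∀ s, (W (G s)).Countable := fun s => W_cnt h' hL _ (a' s) (b' s)
  have cA := H (fun s => ⋃ t ∈ W (G s), F s t) (fun s => (cB s).biUnion fun t _ => (a s t).countable)
    fun s z hz => by obtain ⟨t, _, k⟩ := mem_iUnion₂.1 hz; exact b s t z k
  refine ⟨⋃ s ∈ W (fun s => ⋃ t ∈ W (G s), F s t), i s '' W (G s),
    cA.biUnion fun s _ => (cB s).image _, fun ⟨x, y⟩ _ => ?_⟩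
  by_contra hn
  have key : ∀ s ≤ x, ∃ t ∈ W (G s), ∃ z ∈ F s t, z ≤ x := fun s => by
    induction s using h.wf.induction with
    | _ s ih =>
    intro l
    have hs : s ∈ W (fun s => ⋃ t ∈ W (G s), F s t) := fun s' l' => by
      obtain ⟨t, t1, z, z1, z2⟩ := ih s' l' (l'.le.trans l)
      exact ⟨z, mem_biUnion t1 z1, h.cmp z2 l⟩
    by_contra hF
    push Not at hF
    have k2 : ∀ t ≤ y, ∃ z ∈ G s t, z ≤ y := fun t => by
      induction t using h'.wf.induction with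
      | _ t ih =>
      intro l2
      have ht : t ∈ W (G s) := fun t' l' => by
        obtain ⟨z, z1, z2⟩ := ih t' l' (l'.le.trans l2)
        exact ⟨z, z1, h'.cmp z2 l2⟩
      by_contra hG
      push Not at hG
      exact hn (mem_biUnion (mem_biUnion hs (mem_image_of_mem _ ht))
        (c s t ⟨⟨l, hF t ht⟩, l2, hG⟩))
    obtain ⟨z, z1, z2⟩ := k2 y le_rfl
    exact b' s y z z1 z2
  obtain ⟨t, _, z, z1, z2⟩ := key x le_rfl
  exact b x t z z1 z2

end Pool.Agent.H.MP_2757db_lc.A
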