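import Mathlib
import Pool.Agent.H.MP_2757db_lc.A

set_option autoImplicit false

namespace Pool.Agent.H.MP_2757db_lc.A

open Set Filter Topology Function TopologicalSpace
open Cardinal hiding univ

lemma fib {α β : Type} [Countable β] {A : Set α} (hA : ¬ A.Countable) (f : α → β) :
    ∃ b, ¬ {a ∈ A | f a = b}.Countable := by
  by_contra h
  push Not at h
  exact hA ((countable_iUnion h).mono fun a ha => mem_iUnion.2 ⟨f a, And.intro ha rfl⟩)

lemma delta {Z : Type} {A : Set (Finset Z)} (hA : ¬ A.Countable) :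
    ∃ (n : ℕ) (r : Finset Z) (A' : Set (Finset Z)), A' ⊆ A ∧ ¬ A'.Countable ∧
      (∀ p ∈ A', p.card = n ∧ r ⊆ p) ∧ ∀ z ∉ r, {p ∈ A' | z ∈ p}.Countable := by
  classical
  obtain ⟨n, hn⟩ := fib hA Finset.card
  let Q : ℕ → Prop := fun k => ∃ r : Finset Z, r.card = k ∧
    ¬ {p | (p ∈ A ∧ p.card = n) ∧ r ⊆ p}.Countable
  have q0 : Q 0 := ⟨∅, rfl, by simpa using hn⟩
  obtain ⟨r, r1, r2⟩ : Q (Nat.findGreatest Q n) := Nat.findGreatest_spec (Nat.zero_le n) q0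
  refine ⟨n, r, _, fun p hp => hp.1.1, r2, fun p hp => ⟨hp.1.2, hp.2⟩, fun z hz => ?_⟩
  by_contra hc
  have e : (insert z r).card = Nat.findGreatest Q n + 1 := by rw [Finset.card_insert_of_notMem hz, r1]
  have k : ¬ {p | (p ∈ A ∧ p.card = n) ∧ insert z r ⊆ p}.Countable := fun k =>
    hc (k.mono fun p hp => And.intro hp.1.1 (Finset.insert_subset hp.2 hp.1.2))
  obtain ⟨p, hp⟩ : {p | (p ∈ A ∧ p.card = n) ∧ insert z r ⊆ p}.Nonempty := by
    by_contra h; exact k (by rw [not_nonempty_iff_eq_empty.1 h]; exact countable_empty)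
  have : Nat.findGreatest Q n + 1 ≤ n := by
    rw [← e, ← hp.1.2]; exact Finset.card_le_card hp.2
  exact Nat.findGreatest_is_greatest (Nat.lt_succ_self _) this ⟨_, e, k⟩

lemma ultra {α : Type} {A : Set α} (hA : ¬ A.Countable) :
    ∃ U : Ultrafilter α, A ∈ U ∧ ∀ s : Set α, s.Countable → sᶜ ∈ U := by
  have : (cocountable ⊓ 𝓟 A).NeBot := by
    rw [inf_principal_neBot_iff]
    intro s hs
    by_contra h
    exact hA ((mem_cocountable.1 hs).mono fun a ha k => h ⟨a, k, ha⟩)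
  obtain ⟨U, hU⟩ := Ultrafilter.exists_le (cocountable ⊓ 𝓟 A)
  exact ⟨U, hU (mem_inf_of_right (mem_principal_self A)), fun s hs =>
    hU (mem_inf_of_left (mem_cocountable.2 (by simpa using hs)))⟩

variable {T : Type} [PartialOrder T]

abbrev Z (T : Type) := (T × ℕ) ⊕ (T × ℕ × ℕ)

def Cd (R : T → T → ℕ → Prop) (p : Finset (Z T)) : Prop :=
  ∀ x k b n, Sum.inl (x, k) ∈ p → Sum.inr (b, k, n) ∈ p → b < x → R x b n

lemma ccc [DecidableEq (Z T)] (h : IsTree T) (hC : ∀ C : Set T, IsChain (· ≤ ·) C → C.Countable)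
    (R : T → T → ℕ → Prop) {A : Set (Finset (Z T))} (hA : ¬ A.Countable) (h1 : ∀ p ∈ A, Cd R p) :
    ∃ p ∈ A, ∃ q ∈ A, p ≠ q ∧ Cd R (p ∪ q) := by
  obtain ⟨n, r, A', a1, a2, a3, a4⟩ := delta hA
  obtain ⟨U, u1, u2⟩ := ultra a2
  by_contra hn
  push Not at hn
  have en : ∀ q : Finset (Z T), ∃ e : Fin n → Z T, q ∈ A' → ∀ z ∈ q, ∃ i, e i = z := fun q => by
    by_cases hq : q ∈ A'
    · let e := (Finset.equivFinOfCardEq (a3 q hq).1).symm
      exact ⟨fun i => e i, fun _ z hz => ⟨e.symm ⟨z, hz⟩, by simp⟩⟩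
    · by_cases h0 : Nonempty (Z T)
      · exact ⟨fun _ => h0.some, fun k => (hq k).elim⟩
      · exact (a2 (by
          haveI := not_nonempty_iff.1 h0
          exact to_countable _)).elim
  choose e he using en
  have cI : ∀ x : T, (Iio x).Countable := fun x => hC _ fun a ha b hb _ => h.cmp ha.le hb.le
  have cz : ∀ S : Set T, S.Countable →
      {q ∈ A' | ∃ b ∈ S, ∃ k m, Sum.inr (b, k, m) ∉ r ∧ Sum.inr (b, k, m) ∈ q}.Countable :=
    fun S hS => by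
      refine (hS.biUnion fun b _ => countable_iUnion fun k : ℕ => countable_iUnion fun m : ℕ =>
        countable_iUnion fun hz : Sum.inr (b, k, m) ∉ r => a4 _ hz).mono ?_
      rintro q ⟨hq, b, hb, k, m, x, y⟩
      simp only [mem_iUnion]
      exact ⟨b, hb, k, m, x, hq, y⟩
  have key : ∀ p : Finset (Z T), ∃ i : Option (Fin n), p ∈ A' → ∃ j, i = some j ∧ ∃ b k m,
      Sum.inr (b, k, m) ∉ r ∧ Sum.inr (b, k, m) ∈ p ∧
        {q | ∃ x k, e q j = Sum.inl (x, k) ∧ b < x} ∈ U := fun p => by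
    by_cases hp : p ∈ A'
    swap
    · exact ⟨none, fun k => (hp k).elim⟩
    have c1 := cz (⋃ z ∈ p, ⋃ x, ⋃ k, ⋃ _ : z = Sum.inl (x, k), Iio x)
      (p.countable_toSet.biUnion fun z _ => by
        rcases z with ⟨x, k⟩ | z
        · refine (cI x).mono fun y hy => ?_
          simp only [mem_iUnion] at hy
          obtain ⟨x', k', e, l⟩ := hy
          cases e; exact l
        · simp)
    have : (⋃ w ∈ (univ : Set (Fin n)) ×ˢ ((p : Set (Z T)) \ r), {q | ∃ b k m,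
        w.2 = Sum.inr (b, k, m) ∧ ∃ x k, e q w.1 = Sum.inl (x, k) ∧ b < x}) ∈ U := by
      filter_upwards [u1, u2 _ c1, u2 _ (countable_singleton p)] with q q1 q2 q3
      have := hn p (a1 hp) q (a1 q1) (fun e => q3 e.symm)
      simp only [Cd, not_forall, Finset.mem_union] at this
      obtain ⟨x, k, b, m, x1 | x1, x2 | x2, l, nR⟩ := this
      · exact (nR (h1 p (a1 hp) _ _ _ _ x1 x2 l)).elim
      · refine (q2 ⟨q1, b, ?_, k, m, fun x3 => nR (h1 p (a1 hp) _ _ _ _ x1 ((a3 p hp).2 x3) l),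
          x2⟩).elim
        simp only [mem_iUnion]
        exact ⟨_, x1, x, k, rfl, l⟩
      · obtain ⟨i, hi⟩ := he q q1 _ x1
        exact mem_biUnion (x := (i, Sum.inr (b, k, m))) ⟨trivial, x2, fun x3 =>
          nR (h1 q (a1 q1) _ _ _ _ x1 ((a3 q q1).2 x3) l)⟩ ⟨b, k, m, rfl, x, k, hi, l⟩
      · exact (nR (h1 q (a1 q1) _ _ _ _ x1 x2 l)).elim
    rw [Ultrafilter.finite_biUnion_mem_iff (finite_univ.prod (p.finite_toSet.subset diff_subset))]
      at this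
    obtain ⟨⟨j, z⟩, ⟨_, z1, z2⟩, k⟩ := this
    obtain ⟨q, b, k', m, rfl, _⟩ := U.nonempty_of_mem k
    refine ⟨some j, fun _ => ⟨j, rfl, b, k', m, z2, z1, mem_of_superset k ?_⟩⟩
    rintro q ⟨b', k'', m', e, x⟩
    cases e; exact x
  choose i hi using key
  obtain ⟨j, hj⟩ := fib a2 i
  refine hj ((cz {b | ∃ j', j = some j' ∧ {q | ∃ x k, e q j' = Sum.inl (x, k) ∧ b < x} ∈ U}
    (hC _ ?_)).mono ?_)
  · rintro b ⟨j1, rfl, hb⟩ b' ⟨j2, e2, hb'⟩ _
    cases e2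
    obtain ⟨q, ⟨x, k, e1, l⟩, x', k', e2, l'⟩ := U.nonempty_of_mem (inter_mem hb hb')
    rw [e1] at e2; cases e2
    exact h.cmp l.le l'.le
  · rintro p ⟨hp, rfl⟩
    obtain ⟨j, e1, b, k, m, x1, x2, x3⟩ := hi p hp
    exact ⟨hp, b, ⟨j, e1, x3⟩, k, m, x1, x2⟩

lemma W_ma (ma : MA) (h : IsTree T) (hL : Lind T) (F : T → Set T) (h1 : ∀ b, (F b).Countable)
    (h2 : ∀ b, ∀ y ∈ F b, ¬ y ≤ b) : (W F).Countable := by
  classical
  by_contra hW
  obtain ⟨X, X1, X2⟩ := le_mk_iff_exists_subset.1 (show ℵ₁ ≤ #(W F) by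
    rw [← succ_aleph0, Order.succ_le_iff, ← not_le, le_aleph0_iff_set_countable]; exact hW)
  have hC : ∀ C : Set T, IsChain (· ≤ ·) C → C.Countable := fun C => chain_cnt h hL
  have cI : ∀ x : T, ∃ f : ℕ → T, Iic x = range f := fun x =>
    (hC _ fun a ha b hb _ => h.cmp ha hb).exists_eq_range nonempty_Iic
  choose en hen using cI
  have cF : ∀ b, ∃ f : ℕ → T, insert b (F b) = range f := fun b =>
    ((h1 b).insert b).exists_eq_range (insert_nonempty _ _)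
  choose f hf using cF
  let R : T → T → ℕ → Prop := fun x b n => ∃ j ≤ n, f b j ∈ F b ∧ (f b j ≤ x ∨ x ≤ f b j)
  have Rm : ∀ x b n m, n ≤ m → R x b n → R x b m := fun x b n m l ⟨j, a, c⟩ => ⟨j, a.trans l, c⟩
  have Re : ∀ x ∈ W F, ∀ b, ∃ n, b < x → R x b n := fun x hx b => by
    by_cases l : b < x
    · obtain ⟨y, a, c⟩ := hx b l
      obtain ⟨j, rfl⟩ : y ∈ range (f b) := hf b ▸ mem_insert_of_mem _ a
      exact ⟨j, fun _ => ⟨j, le_rfl, a, c⟩⟩
    · exact ⟨0, fun k => (l k).elim⟩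
  let P := {p : Finset (Z T) // Cd R p ∧ ∀ x k, Sum.inl (x, k) ∈ p → x ∈ W F}
  haveI : Nonempty Pᵒᵈ := ⟨⟨∅, by simp [Cd], by simp⟩⟩
  let D : X × ℕ × ℕ → Set Pᵒᵈ := fun w => {p | (∃ k, Sum.inl (w.1.1, k) ∈ p.1) ∧
    ∃ n, Sum.inr (en w.1.1 w.2.1, w.2.2, n) ∈ p.1}
  obtain ⟨G, -, -, G2, G3⟩ := ma Pᵒᵈ (fun A hA => by
    by_contra hc
    obtain ⟨_, ⟨p, hp, rfl⟩, _, ⟨q, hq, rfl⟩, ne, c⟩ := ccc h hC R
      (A := (fun p : Pᵒᵈ => p.1) '' A)
      (fun k => hc (countable_of_injective_of_countable_image (Subtype.val_injective.injOn) k))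
      (by rintro _ ⟨p, _, rfl⟩; exact p.2.1)
    exact hA hp hq (fun e => ne (congrArg _ e)) ⟨⟨p.1 ∪ q.1, c, fun x k hx =>
      (Finset.mem_union.1 hx).elim (p.2.2 x k) (q.2.2 x k)⟩, Finset.subset_union_left,
      Finset.subset_union_right⟩) (range D) (mk_range_le.trans (by simp [X2])) (by
    rintro _ ⟨⟨x, i, k⟩, rfl⟩ p
    obtain ⟨k0, hk0⟩ := Infinite.exists_notMem_finset
      (p.1.image (Sum.elim (fun w => w.2) (fun w => w.2.1)))
    have : ∀ z : Z T, ∃ n, z ∈ insert (Sum.inl (x.1, k0)) p.1 → ∀ y k, z = Sum.inl (y, k) →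
        en x.1 i < y → R y (en x.1 i) n := fun z => by
      rcases z with ⟨y, k⟩ | z
      · by_cases hz : Sum.inl (y, k) ∈ insert (Sum.inl (x.1, k0)) p.1
        · obtain ⟨n, hn⟩ := Re y ((Finset.mem_insert.1 hz).elim (fun e => by cases e; exact X1 x.2)
            (p.2.2 y k)) (en x.1 i)
          exact ⟨n, fun _ y' k' e => by cases e; exact hn⟩
        · exact ⟨0, fun k => (hz k).elim⟩
      · exact ⟨0, fun _ _ _ e => by cases e⟩
    choose n hn using this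
    let p1 := insert (Sum.inl (x.1, k0)) p.1
    refine ⟨⟨insert (Sum.inr (en x.1 i, k, p1.sup n)) p1, ?_, ?_⟩, ⟨⟨k0, by simp [p1]⟩, p1.sup n,
      Finset.mem_insert_self _ _⟩, (Finset.subset_insert _ _).trans (Finset.subset_insert _ _)⟩
    · intro y k' b m y1 y2 l
      have y1' : Sum.inl (y, k') ∈ p1 := (Finset.mem_insert.1 y1).resolve_left (by simp)
      rcases Finset.mem_insert.1 y2 with e | y2
      · cases e
        exact Rm _ _ _ _ (Finset.le_sup y1') (hn _ y1' y k rfl l)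
      have y2' : Sum.inr (b, k', m) ∈ p.1 := (Finset.mem_insert.1 y2).resolve_left (by simp)
      rcases Finset.mem_insert.1 y1' with e | y1
      · cases e
        exact (hk0 (Finset.mem_image.2 ⟨_, y2', rfl⟩)).elim
      · exact p.2.1 _ _ _ _ y1 y2' l
    · intro y k' y1
      have y1' : Sum.inl (y, k') ∈ p1 := (Finset.mem_insert.1 y1).resolve_left (by simp)
      rcases Finset.mem_insert.1 y1' with e | y1
      · cases e; exact X1 x.2
      · exact p.2.2 _ _ y1)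
  have : ∀ (k : ℕ) (b : T), ∃ n : ℕ, (∃ n, ∃ p ∈ G, Sum.inr (b, k, n) ∈ p.1) →
      ∃ p ∈ G, Sum.inr (b, k, n) ∈ p.1 := fun k b => by
    by_cases e : ∃ n, ∃ p ∈ G, Sum.inr (b, k, n) ∈ p.1
    · obtain ⟨n, e⟩ := e; exact ⟨n, fun _ => e⟩
    · exact ⟨0, fun k => (e k).elim⟩
  choose g hg using this
  have : X.Countable := (countable_iUnion fun k => W_cnt h hL (fun b => F b ∩ f b '' Iic (g k b))
    (fun b => ((finite_Iic _).image _).inter_of_right _) fun b y hy => h2 b y hy.1).mono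
    fun x hx => by
      obtain ⟨p, p1, ⟨k, p2⟩, -⟩ := G3 _ ⟨(⟨x, hx⟩, 0, 0), rfl⟩
      refine mem_iUnion.2 ⟨k, fun b l => ?_⟩
      obtain ⟨i, rfl⟩ : b ∈ range (en x) := hen x ▸ l.le
      obtain ⟨q, q1, -, m, q2⟩ := G3 _ ⟨(⟨x, hx⟩, i, k), rfl⟩
      obtain ⟨q', q1', q2'⟩ := hg k (en x i) ⟨m, q, q1, q2⟩
      obtain ⟨r, -, r1, r2⟩ := G2 p p1 q' q1'
      obtain ⟨j, j1, j2, j3⟩ := r.2.1 _ _ _ _ (r1 p2) (r2 q2') l
      exact ⟨_, ⟨j2, j, j1, rfl⟩, j3⟩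
  exact (aleph0_lt_aleph_one.trans_eq X2.symm).not_ge (le_aleph0_iff_set_countable.2 this)

end Pool.Agent.H.MP_2757db_lc.A
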