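import Mathlib
import Pool.Agent.H.MP_2757db_lc.A

set_option autoImplicit false

namespace Pool.Agent.H.MP_2757db_lc.A

open Set Filter Topology Function TopologicalSpace

variable {S : Type} [PartialOrder S]

lemma Suslin.cI (h : Suslin S) (x : S) : (Iic x).Countable :=
  h.2.2.1 _ fun _ ha _ hb _ => h.1.cmp ha hb

lemma Suslin.mins (h : Suslin S) (X : Set S) :
    ∃ M ⊆ X, M.Countable ∧ ∀ x ∈ X, ∃ m ∈ M, m ≤ x := by
  refine ⟨{m ∈ X | ∀ y ∈ X, ¬ y < m}, fun _ k => k.1, h.2.2.2 _ fun a ha b hb ne l =>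
    hb.2 a ha.1 (lt_of_le_of_ne l ne), fun x hx => ?_⟩
  obtain ⟨m, a, b⟩ := h.1.wf.has_min (X ∩ Iic x) ⟨x, hx, le_rfl⟩
  exact ⟨m, ⟨a.1, fun y hy l => b y ⟨hy, l.le.trans a.2⟩ l⟩, a.2⟩

lemma Suslin.cone (h : Suslin S) {X : Set S} (hX : ¬ X.Countable) (l : IsLowerSet X) :
    ∃ t, Ici t ⊆ X := by
  by_contra hn
  push Not at hn
  obtain ⟨M, a, b, c⟩ := h.mins Xᶜ
  refine hX ((b.biUnion fun m _ => h.cI m).mono fun t ht => ?_)
  obtain ⟨u, u1, u2⟩ := not_subset.1 (hn t)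
  obtain ⟨m, m1, m2⟩ := c u u2
  exact mem_biUnion m1 ((h.1.cmp u1 m2).resolve_right fun k => a m1 (l k ht))

lemma Suslin.sub (h : Suslin S) {L : Set S} (hL : ¬ L.Countable) : Suslin L :=
  ⟨tree_of (InvImage.wf (fun z : L => z.1) h.1.wf) fun _ _ x k l => h.1.cmp (x := x.1) k l,
    not_countable_iff.1 (by rwa [countable_coe_iff]),
    fun C hC => countable_of_injective_of_countable_image Subtype.val_injective.injOn
      (h.2.2.1 _ (by
        rintro _ ⟨a, ha, rfl⟩ _ ⟨b, hb, rfl⟩ ne; exact hC ha hb fun e => ne (congrArg _ e))),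
    fun C hC => countable_of_injective_of_countable_image Subtype.val_injective.injOn
      (h.2.2.2 _ (by
        rintro _ ⟨a, ha, rfl⟩ _ ⟨b, hb, rfl⟩ ne; exact hC ha hb fun e => ne (congrArg _ e)))⟩

lemma Suslin.normal (h : Suslin S) : ∃ (L : Set S) (e : L → ℕ → L), Suslin L ∧
    (∀ t n, t < e t n) ∧ (∀ t u, t < u → ∃ n, e t n ≤ u) ∧ ∀ t n m, e t n ≤ e t m → n = m := by
  let S' := {t : S | ¬ (Ici t).Countable}
  have c1 : S'ᶜ.Countable := by
    obtain ⟨M, a, b, c⟩ := h.mins S'ᶜ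
    exact (b.biUnion fun m hm => not_not.1 (a hm)).mono fun x hx =>
      let ⟨m, m1, m2⟩ := c x hx; mem_biUnion m1 m2
  have sp : ∀ t : S', ∃ a b : S', t < a ∧ t < b ∧ ¬ a ≤ b ∧ ¬ b ≤ a := fun t => by
    by_contra hn
    push Not at hn
    refine t.2 (((h.2.2.1 (Ioi t.1 ∩ S') fun a ha b hb _ => ?_).union
      (c1.union (countable_singleton t.1))).mono fun x hx => ?_)
    · by_cases k : a ≤ b
      · exact .inl k
      · exact .inr (hn ⟨a, ha.2⟩ ⟨b, hb.2⟩ ha.1 hb.1 k)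
    · by_cases k : x ∈ S'
      · rcases (mem_Ici.1 hx).eq_or_lt with e | e
        · exact .inr (.inr e.symm)
        · exact .inl ⟨e, k⟩
      · exact .inr (.inl k)
  choose a b ha hb hab hba using sp
  have mx : ∀ t : S, ∃ e : ℕ → S, t ∈ S' → (∀ n, t < e n ∧ e n ∈ S') ∧ (∀ n m, e n ≤ e m → n = m) ∧
      ∀ u ∈ S', t < u → ∃ n, e n ≤ u ∨ u ≤ e n := fun t => by
    by_cases ht : t ∈ S'
    swap
    · exact ⟨fun _ => t, fun k => (ht k).elim⟩
    let c : ℕ → S' := fun n => b^[n] ⟨t, ht⟩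
    have cm : StrictMono c := strictMono_nat_of_lt_succ fun n => by
      simp only [c, iterate_succ_apply']; exact hb _
    have cs : ∀ n, c (n + 1) = b (c n) := fun n => iterate_succ_apply' _ _ _
    have an : ∀ n m, n < m → ¬ a (c n) ≤ a (c m) ∧ ¬ a (c m) ≤ a (c n) := fun n m l => by
      have : b (c n) ≤ a (c m) := (cs n ▸ cm.monotone l).trans (ha _).le
      exact ⟨fun k => (h.1.cmp (x := (a (c m)).1) k this).elim (hab _) (hba _),
        fun k => hba _ (this.trans k)⟩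
    obtain ⟨A, A1, A2⟩ := zorn_subset_nonempty {A : Set S | A ⊆ Ioi t ∩ S' ∧ IsAntichain (· ≤ ·) A}
      (fun C C1 C2 _ => ⟨⋃₀ C, ⟨sUnion_subset fun s hs => (C1 hs).1, by
        rintro x ⟨s, s1, s2⟩ y ⟨r, r1, r2⟩ ne
        rcases C2.total s1 r1 with k | k
        exacts [(C1 r1).2 (k s2) r2 ne, (C1 s1).2 s2 (k r2) ne]⟩, fun s => subset_sUnion_of_mem⟩)
      (range fun n => (a (c n)).1) ⟨by
        rintro _ ⟨n, rfl⟩
        exact ⟨lt_of_le_of_lt (cm.monotone (Nat.zero_le n) : c 0 ≤ c n) (ha _), (a (c n)).2⟩, by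
        rintro _ ⟨n, rfl⟩ _ ⟨m, rfl⟩ ne
        rcases lt_trichotomy n m with l | rfl | l
        exacts [(an n m l).1, (ne rfl).elim, (an m n l).2]⟩
    have inf : A.Infinite := (infinite_range_of_injective fun n m e => by
      rcases lt_trichotomy n m with l | l | l
      exacts [((an n m l).1 (le_of_eq (Subtype.ext e))).elim, l,
        ((an m n l).2 (le_of_eq (Subtype.ext e))).elim]).mono A1
    obtain ⟨d⟩ := Set.countable_infinite_iff_nonempty_denumerable.1 ⟨h.2.2.2 A A2.1.2, inf⟩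
    let e := (Denumerable.eqv A).symm
    refine ⟨fun n => e n, fun _ => ⟨fun n => A2.1.1 (e n).2, fun n m l => ?_, fun u u1 u2 => ?_⟩⟩
    · by_contra ne
      exact A2.1.2 (e n).2 (e m).2 (fun k => ne (e.injective (Subtype.ext k))) l
    · by_contra hn
      push Not at hn
      have k : ∀ x ∈ A, ¬ x ≤ u ∧ ¬ u ≤ x := fun x hx => by simpa using hn (e.symm ⟨x, hx⟩)
      have := A2.2 (y := insert u A) ⟨insert_subset ⟨u2, u1⟩ A2.1.1, A2.1.2.insert
        (fun x hx _ => (k x hx).1) fun x hx _ => (k x hx).2⟩ (subset_insert _ _)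
      exact (k u (this (mem_insert _ _))).1 le_rfl
  choose e he using mx
  let L : S → Prop := h.1.wf.fix fun u IH => u ∈ S' ∧ ∀ t (k : t < u), IH t k → ∃ n, e t n ≤ u
  have hL : ∀ u, L u ↔ u ∈ S' ∧ ∀ t < u, L t → ∃ n, e t n ≤ u := fun u => by
    simp only [L]; rw [WellFounded.fix_eq]
  have eL : ∀ t, L t → ∀ n, L (e t n) := fun t ht n => by
    obtain ⟨t1, t2⟩ := (hL t).1 ht
    obtain ⟨e1, e2, -⟩ := he t t1
    refine (hL _).2 ⟨(e1 n).2, fun s l hs => ?_⟩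
    rcases h.1.cmp l.le (e1 n).1.le with k | k
    · rcases k.eq_or_lt with rfl | k
      · exact ⟨n, le_rfl⟩
      · obtain ⟨m, hm⟩ := t2 s k hs
        exact ⟨m, hm.trans (e1 n).1.le⟩
    · rcases k.eq_or_lt with rfl | k
      · exact ⟨n, le_rfl⟩
      · obtain ⟨m, hm⟩ := ((hL s).1 hs).2 t k ht
        cases e2 _ _ (hm.trans l.le)
        exact (l.not_ge hm).elim
  have unc : ¬ {u | L u}.Countable := fun k => by
    obtain ⟨u, hu⟩ : ∃ u, u ∉ S'ᶜ ∪ ⋃ m ∈ {u | L u}, Iic m := by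
      by_contra hn
      push Not at hn
      haveI := h.2.1
      exact not_countable_univ ((c1.union (k.biUnion fun m _ => h.cI m)).mono fun x _ => hn x)
    simp only [mem_union, mem_compl_iff, mem_iUnion, not_or, not_not, not_exists] at hu
    refine hu.2 u ((hL u).2 ⟨hu.1, fun t l ht => ?_⟩) le_rfl
    obtain ⟨n, k⟩ := (he t ((hL t).1 ht).1).2.2 u hu.1 l
    exact ⟨n, k.resolve_right (hu.2 _ (eL t ht n))⟩
  exact ⟨{u | L u}, fun t n => ⟨e t n, eL t t.2 n⟩, h.sub unc,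
    fun t n => ((he t ((hL t).1 t.2).1).1 n).1, fun t u l => ((hL u).1 u.2).2 t l t.2,
    fun t => (he t ((hL t).1 t.2).1).2.1⟩

end Pool.Agent.H.MP_2757db_lc.A
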